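import Mathlib
import Pool.Agent.Q18.ZrMain

namespace Pool.Agent.Results.MP_ad7422_al.NonabelianFitting

/-- `χ` is the character of an irreducible complex representation of `G`. -/
def IsIrrChar {G : Type} [Group G] (χ : G → ℂ) : Prop :=
  ∃ (n : ℕ) (ρ : Representation ℂ G (Fin n → ℂ)), ρ.IsIrreducible ∧ ρ.character = χ

/-- `z(χ)`: the number of conjugacy classes on which `χ` takes the value `0`. -/
noncomputable def zeroClasses {G : Type} [Group G] (χ : G → ℂ) : ℕ :=
  Nat.card {C : ConjClasses G // ∀ g ∈ C.carrier, χ g = 0}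

/-- `m(G)`: the largest number of zeros in a row of the character table. -/
noncomputable def maxZeros (G : Type) [Group G] : ℕ :=
  sSup {n : ℕ | ∃ χ : G → ℂ, IsIrrChar χ ∧ zeroClasses χ = n}

/-- The Fitting subgroup: the subgroup generated by all normal nilpotent subgroups (for a finite
group, its largest normal nilpotent subgroup). -/
def fitting (G : Type) [Group G] : Subgroup G :=
  sSup {N : Subgroup G | N.Normal ∧ Group.IsNilpotent N}

open Q18.Zr Q18.Zr.Gr

section
variable {F A : Type} [Field F] [Fintype F] [CharP F 2] {R : Type} [Field R]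
  [AddCommGroup A] [Module R A] [Fintype A] {θ : Fˣ →* Rˣ}

set_option linter.unusedSectionVars false

/-- Every element outside the kernel is conjugate to an element of the complement. -/
theorem isConj_compl (hF : Fintype.card F = 8) (hθ : ∀ c, c ≠ 1 → θ c ≠ 1) (g : Gr A θ)
    (hg : g.c ≠ 1) : IsConj (⟨0, 0, 0, g.c⟩ : Gr A θ) g := by
  have h1 : (1 : F) - g.c ≠ 0 := by
    rw [sub_ne_zero]
    intro h
    exact hg (Units.ext h.symm)
  have h3 : (1 : F) - (g.c : F) ^ 3 ≠ 0 := by
    rw [sub_ne_zero]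
    intro h
    apply hg
    apply (cube_bij hF).1
    apply Units.ext
    simp [← h]
  have hr : (1 : R) - (θ g.c : Rˣ) ≠ 0 := by
    rw [sub_ne_zero]
    intro h
    exact hθ _ hg (Units.ext h.symm)
  rw [isConj_iff]
  set y : F := g.x / (1 - g.c) with hy
  refine ⟨⟨y, (g.u + g.x * (g.c * y) ^ 2) / (1 - (g.c : F) ^ 3),
    ((1 : R) - (θ g.c : Rˣ))⁻¹ • g.a, 1⟩, ?_⟩
  rw [mul_inv_eq_iff_eq_mul]
  ext
  · simp only [mul_x, mul_zero, add_zero]
    rw [hy]
    field_simp
    ring
  · simp only [mul_u, mul_zero, add_zero]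
    field_simp
    ring
  · simp only [mul_a, smul_zero, add_zero]
    set b : A := ((1 : R) - (θ g.c : Rˣ))⁻¹ • g.a with hb
    have : g.a = ((1 : R) - (θ g.c : Rˣ)) • b := by
      rw [hb, smul_smul, mul_inv_cancel₀ hr, one_smul]
    rw [this, sub_smul, one_smul, Units.smul_def]
    simp
  · simp

theorem zeroClasses_le (hF : Fintype.card F = 8) (hθ : ∀ c, c ≠ 1 → θ c ≠ 1) (p : ℕ)
    (hp : p.Prime) (h7 : 7 < p) (hA : ∀ a : A, p • a = 0) (χ : Gr A θ → ℂ)
    (hχ : IsIrrChar χ) : zeroClasses χ ≤ 6 := by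
  classical
  obtain ⟨n, ρ, hρ, rfl⟩ := hχ
  unfold zeroClasses
  have hrep : ∀ C : {C : ConjClasses (Gr A θ) // ∀ g ∈ C.carrier, ρ.character g = 0},
      ∃ g : Gr A θ, ConjClasses.mk g = C.1 ∧ g.c ≠ 1 := by
    intro C
    obtain ⟨g, hg⟩ := ConjClasses.exists_rep C.1
    refine ⟨g, hg, fun hc => ?_⟩
    have h0 := C.2 g (by rw [← hg]; exact ConjClasses.mem_carrier_mk)
    rw [eq_kk g hc] at h0
    exact char_ne_zero hF p hp h7 hA ρ hρ _ _ _ h0
  choose r hr hrc using hrep
  have hinj : Function.Injective (fun C => (⟨(r C).c, hrc C⟩ : {c : Fˣ // c ≠ 1})) := by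
    intro C D hCD
    have hcd : (r C).c = (r D).c := congrArg Subtype.val hCD
    have e1 := isConj_compl hF hθ (r C) (hrc C)
    have e2 := isConj_compl hF hθ (r D) (hrc D)
    rw [hcd] at e1
    have e3 : IsConj (r C) (r D) := e1.symm.trans e2
    apply Subtype.ext
    rw [← hr C, ← hr D]
    exact ConjClasses.mk_eq_mk_iff_isConj.2 e3
  have hle := Nat.card_le_card_of_injective _ hinj
  refine hle.trans ?_
  rw [Nat.card_eq_fintype_card, Fintype.card_subtype_compl, Fintype.card_units, hF]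
  simp

/-- The kernel `K = P × A`. -/
def kerC (A : Type) {F R : Type} [Field F] [CharP F 2] [Field R] [AddCommGroup A] [Module R A]
    (θ : Fˣ →* Rˣ) : Subgroup (Gr A θ) :=
  ({ toFun := fun g => g.c, map_one' := rfl, map_mul' := fun _ _ => rfl } : Gr A θ →* Fˣ).ker

theorem mem_kerC (g : Gr A θ) : g ∈ kerC A θ ↔ g.c = 1 := Iff.rfl

instance : (kerC A θ).Normal := by unfold kerC; infer_instance

theorem nilpotent_kerC : Group.IsNilpotent (kerC A θ) := by
  let f : kerC A θ →* Multiplicative (F × A) :=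
    { toFun := fun g => Multiplicative.ofAdd (g.1.x, g.1.a)
      map_one' := rfl
      map_mul' := by
        intro g h
        have hg : g.1.c = 1 := g.2
        rw [← ofAdd_add]
        congr 1
        ext <;> simp [hg] }
  refine Subgroup.isNilpotent_of_ker_le_center f ?_
  intro g hg
  rw [Subgroup.mem_center_iff]
  intro h
  have hx : g.1.x = 0 := congrArg (fun z => (Multiplicative.toAdd z).1) hg
  have ha : g.1.a = 0 := congrArg (fun z => (Multiplicative.toAdd z).2) hg
  have hgc : g.1.c = 1 := g.2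
  have hhc : h.1.c = 1 := h.2
  apply Subtype.ext
  ext <;> simp [hx, ha, hgc, hhc, add_comm]

theorem kerC_le_fitting : kerC A θ ≤ fitting (Gr A θ) :=
  le_sSup ⟨inferInstance, nilpotent_kerC⟩

end

noncomputable instance : Fintype (GaloisField 2 3) := Fintype.ofFinite _

theorem card_F : Fintype.card (GaloisField 2 3) = 8 := by
  rw [← Nat.card_eq_fintype_card, GaloisField.card 2 3 (by norm_num)]
  norm_num

instance : Fact (Nat.Prime 29) := ⟨by norm_num⟩

theorem exists_theta : ∃ θ : (GaloisField 2 3)ˣ →* (ZMod 29)ˣ, ∀ c, c ≠ 1 → θ c ≠ 1 := by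
  obtain ⟨g, hg⟩ := IsCyclic.exists_generator (α := (GaloisField 2 3)ˣ)
  have hog : orderOf g = 7 := by
    rw [orderOf_eq_card_of_forall_mem_zpowers hg, Nat.card_units,
      GaloisField.card 2 3 (by norm_num)]
    norm_num
  let h : (ZMod 29)ˣ := ZMod.unitOfCoprime 7 (by norm_num)
  have h7 : orderOf h = 7 := by
    have : Fact (Nat.Prime 7) := ⟨by norm_num⟩
    apply orderOf_eq_prime
    · apply Units.ext; decide
    · intro h1
      have := congrArg (fun u : (ZMod 29)ˣ => (u : ZMod 29)) h1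
      revert this
      decide
  let θ : (GaloisField 2 3)ˣ →* (ZMod 29)ˣ :=
    monoidHomOfForallMemZpowers hg (g' := h) (by rw [h7, hog])
  have hθg : θ g = h := monoidHomOfForallMemZpowers_apply_gen hg _
  refine ⟨θ, ?_⟩
  intro c hc hθ
  apply hc
  obtain ⟨k, rfl⟩ := Subgroup.mem_zpowers_iff.1 (hg c)
  rw [map_zpow, hθg] at hθ
  rw [← orderOf_dvd_iff_zpow_eq_one] at hθ ⊢
  rw [hog, ← h7]
  exact hθ

/-- Question Q2 is answered negatively, with `k = 6`. -/
theorem result : ∀ N : ℕ, ∃ (G : Type) (_ : Group G) (_ : Finite G),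
    (∃ a ∈ fitting G, ∃ b ∈ fitting G, a * b ≠ b * a) ∧ maxZeros G ≤ 6 ∧ N ≤ Nat.card G := by
  classical
  intro N
  obtain ⟨θ, hθ⟩ := exists_theta
  refine ⟨Gr (Fin N → ZMod 29) θ, inferInstance, inferInstance, ?_, ?_, ?_⟩
  · obtain ⟨t, ht0, ht1⟩ : ∃ t : GaloisField 2 3, t ≠ 0 ∧ t ≠ 1 := by
      by_contra hcon
      push Not at hcon
      have hsub : (Finset.univ : Finset (GaloisField 2 3)) ⊆ {0, 1} := by
        intro t _
        by_cases h0 : t = 0
        · simp [h0]
        · simp [hcon t h0]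
      have := Finset.card_le_card hsub
      rw [Finset.card_univ, card_F] at this
      have h2 := Finset.card_le_two (a := (0 : GaloisField 2 3)) (b := 1)
      omega
    refine ⟨kk 1 0 0, kerC_le_fitting rfl, kk t 0 0, kerC_le_fitting rfl, ?_⟩
    intro h
    have := congrArg Gr.u h
    rw [kk_mul, kk_mul] at this
    have h2 : t ^ 2 = t := by simpa [kk] using this
    have h3 : t * (t - 1) = 0 := by rw [mul_sub, ← pow_two, h2]; ring
    rcases mul_eq_zero.1 h3 with h4 | h4
    · exact ht0 h4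
    · exact ht1 (sub_eq_zero.1 h4)
  · apply csSup_le'
    rintro n ⟨χ, hχ, rfl⟩
    exact zeroClasses_le card_F hθ 29 (by norm_num) (by norm_num)
      (fun a => by ext i; simp [Pi.smul_apply]; left; decide) χ hχ
  · rw [Nat.card_congr (equivProd (A := Fin N → ZMod 29) (θ := θ)), Nat.card_prod,
      Nat.card_prod, Nat.card_prod, Nat.card_units, GaloisField.card 2 3 (by norm_num)]
    have : Nat.card (Fin N → ZMod 29) = 29 ^ N := by simp
    rw [this]
    have h2 : N < 29 ^ N := Nat.lt_pow_self (by norm_num)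
    have h3 : 29 ^ N ≤ (2 ^ 3 - 1) * 2 ^ 3 * (2 ^ 3 * 29 ^ N) := by
      norm_num
      nlinarith [Nat.zero_le (29 ^ N)]
    omega

end Pool.Agent.Results.MP_ad7422_al.NonabelianFitting
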